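import Mathlib

/-!
# Averages
-/

namespace Pool.Agent.Helper1.PH

open Finset ComplexConjugate

section avg

variable {X Y : Type} [Fintype X] [Fintype Y]

/-- The average of a complex function. -/
noncomputable def av (f : X → ℂ) : ℂ := (∑ x, f x) / (Fintype.card X : ℂ)

/-- The average of a real function. -/
noncomputable def avr (f : X → ℝ) : ℝ := (∑ x, f x) / (Fintype.card X : ℝ)

theorem av_prod (f : X × Y → ℂ) : av f = av fun x => av fun y => f (x, y) := by
  unfold av
  rw [Fintype.sum_prod_type, Fintype.card_prod, ← Finset.sum_div, div_div, Nat.cast_mul, mul_comm (Fintype.card Y : ℂ)]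

theorem avr_prod (f : X × Y → ℝ) : avr f = avr fun x => avr fun y => f (x, y) := by
  unfold avr
  rw [Fintype.sum_prod_type, Fintype.card_prod, ← Finset.sum_div, div_div, Nat.cast_mul, mul_comm (Fintype.card Y : ℝ)]

theorem av_equiv (e : X ≃ Y) (f : Y → ℂ) : av (fun x => f (e x)) = av f := by
  unfold av
  rw [Equiv.sum_comp e f, Fintype.card_congr e]

theorem avr_equiv (e : X ≃ Y) (f : Y → ℝ) : avr (fun x => f (e x)) = avr f := by
  unfold avr
  rw [Equiv.sum_comp e f, Fintype.card_congr e]

theorem av_comm (f : X → Y → ℂ) : (av fun x => av fun y => f x y) = av fun y => av fun x => f x y := by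
  rw [← av_prod fun p : X × Y => f p.1 p.2, ← av_prod fun p : Y × X => f p.2 p.1]
  exact av_equiv (Equiv.prodComm X Y) fun p : Y × X => f p.2 p.1

theorem avr_nonneg {f : X → ℝ} (h : ∀ x, 0 ≤ f x) : 0 ≤ avr f :=
  div_nonneg (Finset.sum_nonneg fun x _ => h x) (Nat.cast_nonneg _)

theorem avr_mono {f g : X → ℝ} (h : ∀ x, f x ≤ g x) : avr f ≤ avr g :=
  div_le_div_of_nonneg_right (Finset.sum_le_sum fun x _ => h x) (Nat.cast_nonneg _)

theorem norm_av_le (f : X → ℂ) : ‖av f‖ ≤ avr fun x => ‖f x‖ := by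
  unfold av avr
  rw [norm_div, Complex.norm_natCast]
  exact div_le_div_of_nonneg_right (norm_sum_le _ _) (Nat.cast_nonneg _)

theorem av_mul_left (c : ℂ) (f : X → ℂ) : (av fun x => c * f x) = c * av f := by
  unfold av
  rw [← Finset.mul_sum, mul_div_assoc]

theorem av_mul_right (c : ℂ) (f : X → ℂ) : (av fun x => f x * c) = av f * c := by
  unfold av
  rw [← Finset.sum_mul, mul_div_right_comm]

theorem conj_av (f : X → ℂ) : conj (av f) = av fun x => conj (f x) := by
  unfold av
  rw [map_div₀, map_sum, Complex.conj_natCast]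

theorem avr_eq_av (f : X → ℝ) : ((avr f : ℝ) : ℂ) = av fun x => (f x : ℂ) := by
  unfold av avr
  push_cast
  rfl

/-- The power of the average is at most the average of the powers. -/
theorem avr_pow_le [Nonempty X] {f : X → ℝ} (h : ∀ x, 0 ≤ f x) (n : ℕ) : avr f ^ n ≤ avr fun x => f x ^ n := by
  have hc : (Fintype.card X : ℝ) ≠ 0 := Nat.cast_ne_zero.2 Fintype.card_ne_zero
  have h1 := Real.pow_arith_mean_le_arith_mean_pow (Finset.univ : Finset X)
    (fun _ => (Fintype.card X : ℝ)⁻¹) f (fun _ _ => inv_nonneg.2 (Nat.cast_nonneg _))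
    (by rw [Finset.sum_const, nsmul_eq_mul, Finset.card_univ, mul_inv_cancel₀ hc]) (fun x _ => h x) n
  rw [← Finset.mul_sum, ← Finset.mul_sum] at h1
  unfold avr
  rw [div_eq_inv_mul, div_eq_inv_mul]
  exact h1

/-- The square of the average of a bounded multiple. -/
theorem sq_av_le [Nonempty X] {D F : X → ℂ} (hD : ∀ x, ‖D x‖ ≤ 1) :
    ‖av fun x => D x * F x‖ ^ 2 ≤ avr fun x => ‖F x‖ ^ 2 := by
  have h1 : ‖av fun x => D x * F x‖ ≤ avr fun x => ‖F x‖ := by
    refine (norm_av_le _).trans (avr_mono fun x => ?_)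
    rw [norm_mul]
    exact mul_le_of_le_one_left (norm_nonneg _) (hD x)
  exact (pow_le_pow_left₀ (norm_nonneg _) h1 2).trans (avr_pow_le (fun x => norm_nonneg _) 2)

theorem norm_av_sq (F : X → ℂ) :
    ((‖av F‖ ^ 2 : ℝ) : ℂ) = av fun t => av fun s => F t * conj (F s) := by
  rw [← Complex.normSq_eq_norm_sq, Complex.normSq_eq_conj_mul_self, mul_comm, conj_av]
  rw [← av_mul_right]
  refine congrArg av (funext fun t => ?_)
  rw [← av_mul_left]

/-- The average of the squares of averages. -/
theorem avr_sq (F : X → Y → ℂ) : (avr fun y => ‖av fun t => F t y‖ ^ 2) ≤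
    avr fun t => avr fun s => ‖av fun y => F t y * conj (F s y)‖ := by
  have h1 : ((avr fun y => ‖av fun t => F t y‖ ^ 2 : ℝ) : ℂ) =
      av fun t => av fun s => av fun y => F t y * conj (F s y) := by
    rw [avr_eq_av]
    simp only [norm_av_sq]
    rw [av_comm]
    refine congrArg av (funext fun t => ?_)
    rw [av_comm]
  have h2 : 0 ≤ avr fun y => ‖av fun t => F t y‖ ^ 2 := avr_nonneg fun y => sq_nonneg _
  have h3 : (avr fun y => ‖av fun t => F t y‖ ^ 2) =
      ‖av fun t => av fun s => av fun y => F t y * conj (F s y)‖ := by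
    rw [← h1, Complex.norm_real, Real.norm_of_nonneg h2]
  rw [h3]
  refine (norm_av_le _).trans (avr_mono fun t => ?_)
  exact norm_av_le _

end avg

end Pool.Agent.Helper1.PH
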