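import Pool.Agent.Helper1.PH.Avg

/-!
# The inequality for intersections of cylinders
-/

namespace Pool.Agent.Helper1.PH

open Finset ComplexConjugate

section gow

variable {A : Type} [Fintype A] [AddCommGroup A]

/-- The `2 ^ (w + 1)`-th power of the uniformity norm of order `w + 1`. -/
noncomputable def gow : ℕ → (A → ℂ) → ℝ
  | 0, f => ‖av f‖ ^ 2
  | w + 1, f => avr fun h => gow w fun x => f x * conj (f (x + h))

theorem gow_zero (f : A → ℂ) : gow 0 f = ‖av f‖ ^ 2 := rfl

theorem gow_succ (w : ℕ) (f : A → ℂ) : gow (w + 1) f = avr fun h => gow w fun x => f x * conj (f (x + h)) := rfl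

theorem gow_nonneg : ∀ (w : ℕ) (f : A → ℂ), 0 ≤ gow w f
  | 0, _ => sq_nonneg _
  | w + 1, _ => avr_nonneg fun _ => gow_nonneg w _

theorem gow_shift (w : ℕ) : ∀ (f : A → ℂ) (a : A), gow w (fun x => f (x + a)) = gow w f := by
  induction w with
  | zero =>
    intro f a
    rw [gow_zero, gow_zero]
    have h1 := av_equiv (Equiv.addRight a) f
    rw [← h1]
    rfl
  | succ w ih =>
    intro f a
    rw [gow_succ, gow_succ]
    refine congrArg avr (funext fun h => ?_)
    rw [← ih (fun x => f x * conj (f (x + h))) a]
    refine congrArg (gow w) (funext fun x => ?_)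
    show f (x + a) * conj (f (x + h + a)) = f (x + a) * conj (f (x + a + h))
    rw [add_right_comm]

omit [AddCommGroup A] in
theorem avr_const [Nonempty A] (c : ℝ) : (avr fun _ : A => c) = c := by
  unfold avr
  rw [Finset.sum_const, nsmul_eq_mul, Finset.card_univ]
  exact mul_div_cancel_left₀ c (Nat.cast_ne_zero.2 Fintype.card_ne_zero)

/-- The inequality of Babai, Nisan and Szegedy. -/
theorem bns (w : ℕ) : ∀ (f : A → ℂ) (C : Fin (w + 1) → (Fin (w + 1) → A) → ℂ), (∀ l y, ‖C l y‖ ≤ 1) →
    (∀ l y z, C l (Function.update y l z) = C l y) →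
    ‖av fun y : Fin (w + 1) → A => f (∑ l, y l) * ∏ l, C l y‖ ^ 2 ^ (w + 1) ≤ gow w f := by
  induction w with
  | zero =>
    intro f C hC hupd
    rw [gow_zero]
    change _ ^ 2 ^ 1 ≤ _
    rw [pow_one]
    have h1 : ∀ y : Fin 1 → A, C 0 y = C 0 0 := by
      intro y
      have h2 := hupd 0 0 (y 0)
      rw [← h2]
      congr 1
      funext i
      have hi : i = 0 := Subsingleton.elim _ _
      subst hi
      simp
    have h2 : (av fun y : Fin (0 + 1) → A => f (∑ l, y l) * ∏ l, C l y) = av f * C 0 0 := by
      rw [← av_mul_right, ← av_equiv (Equiv.funUnique (Fin 1) A)]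
      refine congrArg av (funext fun y => ?_)
      simp [h1 y]
    rw [h2, norm_mul, mul_pow]
    exact mul_le_of_le_one_right (sq_nonneg _) (pow_le_one₀ (norm_nonneg _) (hC _ _))
  | succ w ih =>
    intro f C hC hupd
    -- the first coordinate
    set D : (Fin (w + 1) → A) → ℂ := fun y => C 0 (Fin.cons 0 y) with hD
    set F : A → (Fin (w + 1) → A) → ℂ := fun t y =>
      f (∑ l, y l + t) * ∏ l : Fin (w + 1), C (Fin.succ l) (Fin.cons t y) with hF
    have h1 : (av fun y : Fin (w + 1 + 1) → A => f (∑ l, y l) * ∏ l, C l y) =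
        av fun y => D y * av fun t => F t y := by
      rw [← av_equiv (Fin.consEquiv fun _ => A), av_prod, av_comm]
      refine congrArg av (funext fun y => ?_)
      rw [← av_mul_left]
      refine congrArg av (funext fun t => ?_)
      have h2 : C 0 (Fin.cons t y) = D y := by
        rw [hD]
        change _ = C 0 (Fin.cons 0 y)
        rw [← hupd 0 (Fin.cons 0 y) t, Fin.update_cons_zero]
      have h3 : (Fin.consEquiv (fun _ : Fin (w + 1 + 1) => A)) (t, y) = (Fin.cons t y : Fin (w + 1 + 1) → A) := rfl
      rw [h3, Fin.sum_univ_succ, Fin.prod_univ_succ]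
      simp only [Fin.cons_zero, Fin.cons_succ]
      rw [h2, hF]
      change f (t + ∑ l, y l) * (D y * _) = D y * (f (∑ l, y l + t) * _)
      rw [add_comm t, mul_left_comm]
    rw [h1, pow_succ' 2 (w + 1), pow_mul]
    have h4 : ‖av fun y => D y * av fun t => F t y‖ ^ 2 ≤
        avr fun t => avr fun s => ‖av fun y => F t y * conj (F s y)‖ :=
      (sq_av_le fun y => hC _ _).trans (avr_sq F)
    refine (pow_le_pow_left₀ (sq_nonneg _) h4 _).trans ?_
    refine (avr_pow_le (fun t => avr_nonneg fun s => norm_nonneg _) _).trans ?_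
    have h5 : ∀ t s : A, ‖av fun y => F t y * conj (F s y)‖ ^ 2 ^ (w + 1) ≤
        gow w fun x => f x * conj (f (x + (s - t))) := by
      intro t s
      have h6 := ih (fun x => f (x + t) * conj (f (x + s)))
        (fun l y => C (Fin.succ l) (Fin.cons t y) * conj (C (Fin.succ l) (Fin.cons s y)))
        (fun l y => by
          rw [norm_mul, RCLike.norm_conj]
          exact mul_le_one₀ (hC _ _) (norm_nonneg _) (hC _ _))
        (fun l y z => by
          rw [Fin.cons_update, Fin.cons_update, hupd, hupd])
      have h7 : (fun y : Fin (w + 1) → A => f (∑ l, y l + t) * conj (f (∑ l, y l + s)) *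
          ∏ l, C (Fin.succ l) (Fin.cons t y) * conj (C (Fin.succ l) (Fin.cons s y))) = fun y => F t y * conj (F s y) := by
        funext y
        rw [hF, Finset.prod_mul_distrib]
        simp only [map_mul, map_prod]
        ring
      rw [h7] at h6
      refine h6.trans (le_of_eq ?_)
      rw [← gow_shift w (fun x => f x * conj (f (x + (s - t)))) t]
      refine congrArg (gow w) (funext fun x => ?_)
      show f (x + t) * conj (f (x + s)) = f (x + t) * conj (f (x + t + (s - t)))
      rw [show x + t + (s - t) = x + s by abel]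
    calc (avr fun t => (avr fun s => ‖av fun y => F t y * conj (F s y)‖) ^ 2 ^ (w + 1))
        ≤ avr fun t => avr fun s => ‖av fun y => F t y * conj (F s y)‖ ^ 2 ^ (w + 1) :=
          avr_mono fun t => avr_pow_le (fun s => norm_nonneg _) _
      _ ≤ avr fun t => avr fun s => gow w fun x => f x * conj (f (x + (s - t))) :=
          avr_mono fun t => avr_mono fun s => h5 t s
      _ = avr fun _ : A => gow (w + 1) f := by
          refine congrArg avr (funext fun t => ?_)
          rw [gow_succ]
          exact avr_equiv (Equiv.subRight t) fun h : A => gow w fun x => f x * conj (f (x + h))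
      _ = gow (w + 1) f := avr_const _

end gow

end Pool.Agent.Helper1.PH
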