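import Pool.Agent.Helper1.PH.Letters
import Pool.Agent.Helper96.PH.Defs

/-!
# The cylinder lemma from small uniformity norms
-/

namespace Pool.Agent.Helper1.PH

open Pool.Agent.Helper96.PH (CB)

/-- If all the nontrivial characters of `γ` have small norms, then `CB` holds. -/
theorem cb_of {B G : Type} [AddCommGroup B] [Fintype B] [AddCommGroup G] [Fintype G] (w : ℕ) (γ : B → G)
    (hγ : ∀ χ : AddChar G ℂ, χ ≠ 1 → gow w (fun b => χ (γ b)) ≤ (Fintype.card B : ℝ) ^ (-(1 / 2) : ℝ))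
    (ι : Type) [Fintype ι] : CB γ ι w ((Fintype.card B : ℝ) ^ (-(Fintype.card ι : ℝ) / 2 ^ (w + 2))) := by
  classical
  intro x C hC a
  have hk : (0 : ℝ) < Fintype.card B := Nat.cast_pos.2 Fintype.card_pos
  have h1 := value_bound (ι := ι) w γ (η := (Fintype.card B : ℝ) ^ (-(1 / 2) : ℝ))
    (δ := (Fintype.card B : ℝ) ^ (-(Fintype.card ι : ℝ) / 2 ^ (w + 2))) (Real.rpow_nonneg hk.le _) hγ ?_ C ?_ x a
  · simpa using h1
  · refine le_of_eq ?_
    rw [← Real.rpow_natCast, ← Real.rpow_mul hk.le, ← Real.rpow_natCast, ← Real.rpow_mul hk.le]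
    congr 1
    push_cast
    have h2 : (2 : ℝ) ^ (w + 1) ≠ 0 := pow_ne_zero _ two_ne_zero
    rw [show (2 : ℝ) ^ (w + 2) = 2 ^ (w + 1) * 2 by ring]
    field_simp
  · intro l y z
    refine ⟨fun h => ?_, hC l y z⟩
    have h2 := hC l _ (y l) h
    rwa [Function.update_idem, Function.update_eq_self] at h2

end Pool.Agent.Helper1.PH
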