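import Pool.Agent.Helper1.PH.Bns

/-!
# Products of letters, and the value of the result in an intersection of cylinders
-/

namespace Pool.Agent.Helper1.PH

open Finset ComplexConjugate

section pi

variable {ι B : Type} [Fintype ι] [DecidableEq ι] [Fintype B]

theorem av_pi (φ : ι → B → ℂ) : (av fun x : ι → B => ∏ c, φ c (x c)) = ∏ c, av (φ c) := by
  unfold av
  rw [Finset.prod_div_distrib, Finset.prod_univ_sum, Fintype.piFinset_univ, Finset.prod_const, Finset.card_univ,
    Fintype.card_fun]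
  push_cast
  rfl

theorem avr_pi (φ : ι → B → ℝ) : (avr fun x : ι → B => ∏ c, φ c (x c)) = ∏ c, avr (φ c) := by
  unfold avr
  rw [Finset.prod_div_distrib, Finset.prod_univ_sum, Fintype.piFinset_univ, Finset.prod_const, Finset.card_univ,
    Fintype.card_fun]
  push_cast
  rfl

/-- The norm of a product of functions of single letters. -/
theorem gow_prod [AddCommGroup B] (w : ℕ) : ∀ φ : ι → B → ℂ,
    gow w (fun x : ι → B => ∏ c, φ c (x c)) = ∏ c, gow w (φ c) := by
  induction w with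
  | zero =>
    intro φ
    simp only [gow_zero]
    rw [av_pi, norm_prod, Finset.prod_pow]
  | succ w ih =>
    intro φ
    simp only [gow_succ]
    rw [← avr_pi]
    refine congrArg avr (funext fun h => ?_)
    rw [← ih]
    refine congrArg (gow w) (funext fun x => ?_)
    rw [map_prod, ← Finset.prod_mul_distrib]
    rfl

end pi

/-- A character of a sum. -/
theorem char_sum {ι G : Type} [AddCommMonoid G] (χ : AddChar G ℂ) (s : Finset ι) (f : ι → G) :
    χ (∑ c ∈ s, f c) = ∏ c ∈ s, χ (f c) := by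
  classical
  induction s using Finset.induction_on with
  | empty => rw [Finset.sum_empty, Finset.prod_empty, AddChar.map_zero_eq_one]
  | insert c s hc ih => rw [Finset.sum_insert hc, Finset.prod_insert hc, AddChar.map_add_eq_mul, ih]

variable {ι B G : Type} [Fintype ι] [DecidableEq ι] [Fintype B] [AddCommGroup B] [AddCommGroup G] [Fintype G]

omit [Fintype G] in
/-- The bound for one character. -/
theorem char_bound (w : ℕ) (γ : B → G) (χ : AddChar G ℂ) {η δ : ℝ} (hδ : 0 ≤ δ)
    (hη : gow w (fun b => χ (γ b)) ≤ η) (hηδ : η ^ Fintype.card ι ≤ δ ^ 2 ^ (w + 1))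
    (C : Fin (w + 1) → (Fin (w + 1) → ι → B) → ℂ) (hC : ∀ l y, ‖C l y‖ ≤ 1)
    (hupd : ∀ l y z, C l (Function.update y l z) = C l y) (x0 : ι → B) :
    ‖av fun y : Fin (w + 1) → ι → B => χ (∑ c, γ (x0 c + ∑ l, y l c)) * ∏ l, C l y‖ ≤ δ := by
  classical
  have h1 := bns w (fun x : ι → B => ∏ c, χ (γ (x0 c + x c))) C hC hupd
  have h2 : gow w (fun x : ι → B => ∏ c, χ (γ (x0 c + x c))) = ∏ c, gow w fun b => χ (γ (x0 c + b)) :=
    gow_prod w fun c b => χ (γ (x0 c + b))
  have h3 : ∀ c, gow w (fun b => χ (γ (x0 c + b))) = gow w fun b => χ (γ b) := by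
    intro c
    rw [← gow_shift w (fun b => χ (γ b)) (x0 c)]
    simp only [add_comm]
  rw [h2, Finset.prod_congr rfl fun c _ => h3 c, Finset.prod_const, Finset.card_univ] at h1
  have h4 : ‖av fun y : Fin (w + 1) → ι → B => χ (∑ c, γ (x0 c + ∑ l, y l c)) * ∏ l, C l y‖ ^ 2 ^ (w + 1) ≤
      δ ^ 2 ^ (w + 1) := by
    refine le_trans (le_of_eq ?_) (h1.trans ((pow_le_pow_left₀ (gow_nonneg _ _) hη _).trans hηδ))
    congr 3
    funext y
    rw [char_sum]
    simp only [Finset.sum_apply]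
  exact le_of_pow_le_pow_left₀ (pow_ne_zero _ two_ne_zero) hδ h4

/-- In an intersection of cylinders the result takes no value much more often than others. -/
theorem value_bound (w : ℕ) (γ : B → G) {η δ : ℝ} (hδ : 0 ≤ δ)
    (hη : ∀ χ : AddChar G ℂ, χ ≠ 1 → gow w (fun b => χ (γ b)) ≤ η) (hηδ : η ^ Fintype.card ι ≤ δ ^ 2 ^ (w + 1))
    (C : Fin (w + 1) → Set (Fin (w + 1) → ι → B))
    (hupd : ∀ l y z, Function.update y l z ∈ C l ↔ y ∈ C l) (x0 : ι → B) (a : G) :
    (Nat.card {y : Fin (w + 1) → ι → B // (∀ l, y ∈ C l) ∧ ∑ c, γ (x0 c + ∑ l, y l c) = a} : ℝ) ≤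
      (Nat.card {y : Fin (w + 1) → ι → B // ∀ l, y ∈ C l} : ℝ) / Nat.card G +
        δ * Nat.card (Fin (w + 1) → ι → B) := by
  classical
  have hG : (0 : ℝ) < Fintype.card G := Nat.cast_pos.2 Fintype.card_pos
  set ind : Fin (w + 1) → (Fin (w + 1) → ι → B) → ℂ := fun l y => if y ∈ C l then 1 else 0 with hind
  have hnorm : ∀ l y, ‖ind l y‖ ≤ 1 := by
    intro l y
    rw [hind]
    change ‖(if y ∈ C l then (1 : ℂ) else 0)‖ ≤ 1
    split_ifs <;> simp
  have hind2 : ∀ l y z, ind l (Function.update y l z) = ind l y := by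
    intro l y z
    rw [hind]
    change (if Function.update y l z ∈ C l then (1 : ℂ) else 0) = if y ∈ C l then 1 else 0
    simp only [hupd]
  have hprod : ∀ y, ∏ l, ind l y = if ∀ l, y ∈ C l then 1 else 0 := by
    intro y
    rw [hind, Finset.prod_ite_zero]
    simp
  set N : ℝ := (Fintype.card (Fin (w + 1) → ι → B) : ℝ) with hN
  have hN0 : 0 < N := Nat.cast_pos.2 Fintype.card_pos
  set out : (Fin (w + 1) → ι → B) → G := fun y => ∑ c, γ (x0 c + ∑ l, y l c) with hout
  -- the number as a sum over characters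
  have h1 : ((Nat.card {y : Fin (w + 1) → ι → B // (∀ l, y ∈ C l) ∧ out y = a} : ℝ) : ℂ) =
      (∑ χ : AddChar G ℂ, χ (-a) * ∑ y, χ (out y) * ∏ l, ind l y) / Fintype.card G := by
    rw [Nat.card_eq_fintype_card, Fintype.card_subtype]
    have h2 : ∀ y, (∑ χ : AddChar G ℂ, χ (-a) * (χ (out y) * ∏ l, ind l y)) / (Fintype.card G : ℂ) =
        if (∀ l, y ∈ C l) ∧ out y = a then 1 else 0 := by
      intro y
      have h3 : (∑ χ : AddChar G ℂ, χ (-a) * (χ (out y) * ∏ l, ind l y)) =
          (∑ χ : AddChar G ℂ, χ (out y - a)) * ∏ l, ind l y := by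
        rw [Finset.sum_mul]
        refine Finset.sum_congr rfl fun χ _ => ?_
        rw [sub_eq_add_neg, AddChar.map_add_eq_mul]
        ring
      rw [h3, AddChar.sum_apply_eq_ite, hprod]
      have hGc : (Fintype.card G : ℂ) ≠ 0 := Nat.cast_ne_zero.2 Fintype.card_ne_zero
      by_cases h4 : out y = a
      · by_cases h5 : ∀ l, y ∈ C l
        · have h6 : out y - a = 0 := sub_eq_zero.2 h4
          rw [if_pos h6, if_pos h5, if_pos (And.intro h5 h4), mul_one, div_self hGc]
        · have h6 : ¬ ((∀ l, y ∈ C l) ∧ out y = a) := fun h7 => h5 h7.1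
          rw [if_neg h6, if_neg h5, mul_zero, zero_div]
      · have h6 : ¬ ((∀ l, y ∈ C l) ∧ out y = a) := fun h7 => h4 h7.2
        have h7 : ¬ out y - a = 0 := fun h7 => h4 (sub_eq_zero.1 h7)
        rw [if_neg h6, if_neg h7, zero_mul, zero_div]
    simp only [Finset.mul_sum]
    rw [Finset.sum_comm, Finset.sum_div]
    simp only [h2]
    rw [Finset.sum_ite, Finset.sum_const_zero, add_zero, Finset.sum_const, nsmul_eq_mul, mul_one]
    push_cast
    rfl
  have h6 : ∀ χ : AddChar G ℂ, χ ≠ 1 → ‖χ (-a) * ∑ y, χ (out y) * ∏ l, ind l y‖ ≤ δ * N := by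
    intro χ hχ
    have h7 := char_bound (ι := ι) w γ χ hδ (hη χ hχ) hηδ ind hnorm hind2 x0
    rw [norm_mul, AddChar.norm_apply, one_mul]
    unfold av at h7
    rw [norm_div, Complex.norm_natCast, div_le_iff₀ hN0] at h7
    exact h7
  have h8 : (1 : AddChar G ℂ) (-a) * ∑ y, (1 : AddChar G ℂ) (out y) * ∏ l, ind l y =
      ((Nat.card {y : Fin (w + 1) → ι → B // ∀ l, y ∈ C l} : ℝ) : ℂ) := by
    rw [Nat.card_eq_fintype_card, Fintype.card_subtype]
    simp only [AddChar.one_apply, one_mul, hprod]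
    rw [Finset.sum_ite, Finset.sum_const_zero, add_zero, Finset.sum_const, nsmul_eq_mul, mul_one]
    push_cast
    rfl
  have h9 : (Nat.card {y : Fin (w + 1) → ι → B // (∀ l, y ∈ C l) ∧ out y = a} : ℝ) ≤
      (Nat.card {y : Fin (w + 1) → ι → B // ∀ l, y ∈ C l} + Fintype.card G * (δ * N)) / Fintype.card G := by
    have h10 : ‖((Nat.card {y : Fin (w + 1) → ι → B // (∀ l, y ∈ C l) ∧ out y = a} : ℝ) : ℂ)‖ =
        (Nat.card {y : Fin (w + 1) → ι → B // (∀ l, y ∈ C l) ∧ out y = a} : ℝ) := by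
      rw [Complex.norm_real, Real.norm_of_nonneg (Nat.cast_nonneg _)]
    rw [← h10, h1, norm_div, Complex.norm_natCast]
    refine div_le_div_of_nonneg_right ?_ hG.le
    rw [← Finset.add_sum_erase _ _ (Finset.mem_univ (1 : AddChar G ℂ)), h8]
    refine (norm_add_le _ _).trans (add_le_add (le_of_eq ?_) ((norm_sum_le _ _).trans ?_))
    · rw [Complex.norm_real, Real.norm_of_nonneg (Nat.cast_nonneg _)]
    · refine (Finset.sum_le_card_nsmul _ _ (δ * N) fun χ hχ => h6 χ (Finset.ne_of_mem_erase hχ)).trans ?_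
      rw [nsmul_eq_mul]
      refine mul_le_mul_of_nonneg_right ?_ (mul_nonneg hδ hN0.le)
      rw [← AddChar.card_eq (α := G), ← Finset.card_univ]
      exact Nat.cast_le.2 (Finset.card_le_card (Finset.erase_subset _ _))
  refine h9.trans (le_of_eq ?_)
  rw [add_div, mul_div_cancel_left₀ _ hG.ne', Nat.card_eq_fintype_card (α := G),
    Nat.card_eq_fintype_card (α := Fin (w + 1) → ι → B)]

end Pool.Agent.Helper1.PH
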